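import Pool.Agent.helper29.PQ.Spec

namespace Pool.Agent.helper29.PQ

open Finset

theorem B3_prime (p : ℝ) (hp : 50 ≤ p) : p ^ ((47 : ℝ) / 48) ≤ p - 1 := by
  have h0 : (0 : ℝ) < p := by linarith
  have h1 : (0 : ℝ) < p - 1 := by linarith
  have hlog1 : 1 ≤ Real.log p := by
    rw [Real.le_log_iff_exp_le h0]
    have := Real.exp_one_lt_d9
    linarith
  have hdiff : Real.log p - Real.log (p - 1) ≤ 1 / (p - 1) := by
    rw [← Real.log_div h0.ne' h1.ne']
    have h2 := Real.log_le_sub_one_of_pos (div_pos h0 h1)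
    have h3 : p / (p - 1) - 1 = 1 / (p - 1) := by
      field_simp
      ring
    linarith
  have h49 : 1 / (p - 1) ≤ 1 / 49 := by
    apply one_div_le_one_div_of_le <;> linarith
  rw [Real.rpow_def_of_pos h0, ← Real.le_log_iff_exp_le h1]
  nlinarith

theorem B3 : B3_stmt := by
  intro q hq hp
  have hq0 : q ≠ 0 := hq.ne_zero
  have hqpos : (0 : ℝ) < q := by exact_mod_cast Nat.pos_of_ne_zero hq0
  have hprod : ∏ p ∈ q.primeFactors, p = q := Nat.prod_primeFactors_of_squarefree hq
  have htot : Nat.totient q = ∏ p ∈ q.primeFactors, (p - 1) := by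
    rw [Nat.totient_eq_div_primeFactors_mul, hprod, Nat.div_self (Nat.pos_of_ne_zero hq0), one_mul]
  have hkey : (q : ℝ) ^ ((47 : ℝ) / 48) ≤ (Nat.totient q : ℝ) := by
    have e1 : (q : ℝ) = ∏ p ∈ q.primeFactors, (p : ℝ) := by
      rw [← Nat.cast_prod, hprod]
    have e2 : (Nat.totient q : ℝ) = ∏ p ∈ q.primeFactors, ((p : ℝ) - 1) := by
      rw [htot, Nat.cast_prod]
      apply prod_congr rfl
      intro p hpp
      have := (Nat.prime_of_mem_primeFactors hpp).one_le
      push_cast [Nat.cast_sub this]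
      ring
    rw [e2]
    conv_lhs => rw [e1]
    rw [← Real.finsetProd_rpow _ _ (fun i _ => Nat.cast_nonneg i)]
    apply prod_le_prod
    · intro i _
      positivity
    · intro i hi
      apply B3_prime
      exact_mod_cast hp i (Nat.prime_of_mem_primeFactors hi) (Nat.dvd_of_mem_primeFactors hi)
  have hpow : (0 : ℝ) < (q : ℝ) ^ ((47 : ℝ) / 48) := Real.rpow_pos_of_pos hqpos _
  calc (q : ℝ) / (Nat.totient q : ℝ) ^ 2 ≤ (q : ℝ) / ((q : ℝ) ^ ((47 : ℝ) / 48)) ^ 2 := by
        apply div_le_div_of_nonneg_left hqpos.le (by positivity)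
        exact pow_le_pow_left₀ hpow.le hkey 2
    _ = (q : ℝ) ^ (-(23 / 24) : ℝ) := by
        rw [← Real.rpow_natCast, ← Real.rpow_mul hqpos.le]
        nth_rewrite 1 [← Real.rpow_one (q : ℝ)]
        rw [← Real.rpow_sub hqpos]
        norm_num

end Pool.Agent.helper29.PQ
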