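import Pool.Agent.helper7.PQ.Spec
import Pool.Agent.helper29.OC.PIAP

/-! # Row pq:FO (MP_ebc808_nt): the odd part -/

set_option autoImplicit false

open Finset PowerSeries

noncomputable section

namespace Pool.Agent.PQ

open Pool.Agent.EP

theorem FO_mono (i a : ℕ) (r : ℕ → ZMod 2) : Monotone (Nr i a r) := by
  intro X Y hXY
  unfold Nr
  exact card_le_card (filter_subset_filter _ (range_mono (by omega)))

theorem FO_bd (B Q P P' n y : ℕ) (hQ : 0 < Q) (hy : 0 < y) (hP : P ≤ 2 * y) (hP' : P' ≤ 2 * y)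
    (h : RelP B 1 Q P P' n) : n ≤ Q * y ^ 2 := by
  have h0 : P * (Q * P') ≤ 4 * (Q * y ^ 2) := by
    calc P * (Q * P') ≤ (2 * y) * (Q * (2 * y)) :=
          Nat.mul_le_mul hP (Nat.mul_le_mul_left _ hP')
      _ = 4 * (Q * y ^ 2) := by ring
  have h3 : 1 ≤ Q * y ^ 2 := Nat.one_le_iff_ne_zero.2 (by positivity)
  obtain ⟨u, h | h⟩ := h
  · obtain ⟨-, h1⟩ := h
    rw [one_mul] at h1
    have h2 : P * (Q * P' - B * u ^ 2) ≤ P * (Q * P') := Nat.mul_le_mul_left _ (Nat.sub_le _ _)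
    omega
  · obtain ⟨-, h1⟩ := h
    rw [one_mul] at h1
    have h2 : (P - B * u ^ 2) * (Q * P') ≤ P * (Q * P') := Nat.mul_le_mul_right _ (Nat.sub_le _ _)
    omega

theorem FO (hOEV : OEV_stmt) (hCRO : CRO_stmt) (hCLR : CLR_stmt) (hCNL : CNL_stmt)
    (hXFR : XFR_stmt) : FO_stmt := by
  intro i a r hr
  obtain ⟨s, L₁, c₁, L₂, c₂, hs, hcard, hL₁, hL₂, hc₁, hc₂, hcl⟩ := hCRO i a
  obtain ⟨c, x₀, hc, hP⟩ := Pool.Agent.helper7.OC.primes_ap L₁ c₁ hL₁ hc₁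
  obtain ⟨c', x₀', hc', hP'⟩ := Pool.Agent.helper7.OC.primes_ap L₂ c₂ hL₂ hc₂
  have hQ : 0 < ∏ q ∈ s, q := Finset.prod_pos fun q hq => (hs q hq).1.pos
  obtain ⟨d, y₁, hd, hy₁⟩ := hCNL (2 ^ (2 * (i + 2) + 1)) 1 (∏ q ∈ s, q) (c * c') (by positivity)
    one_pos hQ (by positivity)
  refine hXFR (Nr i a r) (∏ q ∈ s, q) (y₁ + x₀ + x₀' + (∑ q ∈ s, q) + 2) d (FO_mono i a r) hQ hd ?_
  intro y hy
  have hyx : x₀ ≤ y := by omega
  have hyx' : x₀' ≤ y := by omega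
  have hy1 : y₁ ≤ y := by omega
  have hy2 : ∑ q ∈ s, q < y := by omega
  have hy0 : 0 < y := by omega
  set T : Finset (ℕ × ℕ) := ((Ioc y (2 * y)).filter fun p => p.Prime ∧ p % L₁ = c₁ % L₁) ×ˢ
    ((Ioc y (2 * y)).filter fun p => p.Prime ∧ p % L₂ = c₂ % L₂) with hT
  have hTmem : ∀ x ∈ T, (x.1 ∈ Ioc y (2 * y) ∧ x.1.Prime ∧ x.1 % L₁ = c₁ % L₁) ∧
      (x.2 ∈ Ioc y (2 * y) ∧ x.2.Prime ∧ x.2 % L₂ = c₂ % L₂) := by
    intro x hx
    rw [hT, mem_product, mem_filter, mem_filter] at hx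
    exact hx
  have key := hy₁ y hy1 T ({n ∈ range ((∏ q ∈ s, q) * y ^ 2 + 1) | n % 2 ^ i = a % 2 ^ i ∧ pp n ≠ r n})
    (fun x hx => mem_product.2 ⟨(hTmem x hx).1.1, (hTmem x hx).2.1⟩)
    (fun x hx => ⟨(hTmem x hx).1.2.1, (hTmem x hx).2.2.1⟩) ?_ ?_
  · exact key
  · intro x hx hex
    obtain ⟨⟨h1, h2, h3⟩, h4, h5, h6⟩ := hTmem x hx
    obtain ⟨h7, h8, h9, h10⟩ := hcl x.1 x.2 h3 h6
    rw [mem_Ioc] at h1 h4
    have hns : x.2 ∉ s := by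
      intro hmem
      have h11 : x.2 ≤ ∑ q ∈ s, q :=
        Finset.single_le_sum (f := fun q : ℕ => q) (fun q _ => Nat.zero_le q) hmem
      omega
    obtain ⟨n, hn, hpp⟩ := hOEV (i + 2) s x.1 x.2 (by omega) hs hcard h2 h7 h5 h8 hns h9 hex
    have hcls : n % 2 ^ i = a % 2 ^ i :=
      hCLR (2 * (i + 2) + 1) i 1 (∏ q ∈ s, q) x.1 x.2 n a (by omega) hn h10
    refine ⟨n, ?_, hn⟩
    rw [mem_filter, mem_range]
    refine ⟨Nat.lt_succ_of_le (FO_bd _ _ _ _ _ _ hQ hy0 h1.2 h4.2 hn), hcls, ?_⟩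
    rw [hr n hcls]
    exact hpp
  · rw [hT, card_product]
    push_cast
    have hlog : 0 < Real.log y := Real.log_pos (by exact_mod_cast (by omega : 1 < y))
    calc c * c' * (y : ℝ) ^ 2 / Real.log y ^ 2 = (c * y / Real.log y) * (c' * y / Real.log y) := by
          field_simp
      _ ≤ _ := mul_le_mul (hP y hyx) (hP' y hyx') (by positivity) (by positivity)

end Pool.Agent.PQ
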